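import Pool.Agent.Lib.MP_c27bde_al.FP.Fin

set_option autoImplicit false

namespace Pool.Agent.Results.MP_c27bde_al.FinitelyPresented

/-- The class of groups covered: `H` is finitely presented; or `H` is a quotient of a finitely
presented group without free subgroups of rank two; or `H` is finitely generated and for every
surjective character `χ : H → ℤ` one of `χ`, `-χ` is in the Bieri-Neumann-Strebel invariant `Σ¹(H)`
(there are `t` with `χ t = ±1` and a finite subset `S` of the kernel of `χ` with `t ⟨S⟩ t⁻¹ ≤ ⟨S⟩`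
such that the kernel of `χ` is the union of the groups `t⁻ⁿ ⟨S⟩ tⁿ`). -/
def Tame (H : Type) [Group H] : Prop :=
  Group.IsFinitelyPresented H ∨
  (∃ (G : Type) (_ : Group G), Group.IsFinitelyPresented G ∧
    (¬ ∃ φ : FreeGroup (Fin 2) →* G, Function.Injective φ) ∧
    ∃ π : G →* H, Function.Surjective π) ∨
  (Group.FG H ∧ ∀ χ : H →* Multiplicative ℤ, Function.Surjective χ →
    ∃ (t : H) (S : Set H), S.Finite ∧ (∀ s ∈ S, χ s = 1) ∧
      (χ t = Multiplicative.ofAdd 1 ∨ χ t = Multiplicative.ofAdd (-1)) ∧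
      (∀ g ∈ Subgroup.closure S, t * g * t⁻¹ ∈ Subgroup.closure S) ∧
      (∀ h, χ h = 1 → ∃ n : ℕ, t ^ n * h * (t ^ n)⁻¹ ∈ Subgroup.closure S))

/-- The Brin-Sapir conjecture for all finitely presented subgroups of Thompson's group F.
`T` is Thompson's group F, given by the presentation of the frozen statement, and `H` is a subgroup
of `T` that is finitely presented (or, more generally, in the class `Tame`).  Then
(1) `H` contains a copy of F or is abelian, and
(2) `H` is elementary amenable (the definition of the frozen statement) if and only if it contains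
no copy of F. -/
theorem result :
    ∀ (T : Type) [Group T],
      Nonempty (T ≃* PresentedGroup
        ({(FreeGroup.of (0 : Fin 2) * (FreeGroup.of (1 : Fin 2))⁻¹) *
            ((FreeGroup.of (0 : Fin 2))⁻¹ * FreeGroup.of (1 : Fin 2) * FreeGroup.of (0 : Fin 2)) *
            (FreeGroup.of (0 : Fin 2) * (FreeGroup.of (1 : Fin 2))⁻¹)⁻¹ *
            ((FreeGroup.of (0 : Fin 2))⁻¹ * FreeGroup.of (1 : Fin 2) * FreeGroup.of (0 : Fin 2))⁻¹,
          (FreeGroup.of (0 : Fin 2) * (FreeGroup.of (1 : Fin 2))⁻¹) *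
            ((FreeGroup.of (0 : Fin 2))⁻¹ * (FreeGroup.of (0 : Fin 2))⁻¹ * FreeGroup.of (1 : Fin 2) *
              FreeGroup.of (0 : Fin 2) * FreeGroup.of (0 : Fin 2)) *
            (FreeGroup.of (0 : Fin 2) * (FreeGroup.of (1 : Fin 2))⁻¹)⁻¹ *
            ((FreeGroup.of (0 : Fin 2))⁻¹ * (FreeGroup.of (0 : Fin 2))⁻¹ * FreeGroup.of (1 : Fin 2) *
              FreeGroup.of (0 : Fin 2) * FreeGroup.of (0 : Fin 2))⁻¹} :
          Set (FreeGroup (Fin 2)))) →
      ∀ H : Subgroup T, Tame ↥H →
        ((∃ f : T →* ↥H, Function.Injective f) ∨ ∀ x y : ↥H, x * y = y * x) ∧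
        ((∀ C : (G : Type) → [Group G] → Prop,
            (∀ (G : Type) [Group G], Finite G → C G) →
            (∀ (G : Type) [Group G], (∀ a b : G, a * b = b * a) → C G) →
            (∀ (G : Type) [Group G] (K : Subgroup G), C G → C ↥K) →
            (∀ (G : Type) [Group G] (N : Subgroup G) [N.Normal], C G → C (G ⧸ N)) →
            (∀ (G : Type) [Group G] (N : Subgroup G) [N.Normal], C ↥N → C (G ⧸ N) → C G) →
            (∀ (G : Type) [Group G],
              (∀ s : Finset G, C ↥(Subgroup.closure (s : Set G))) → C G) →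
            (∀ (G G' : Type) [Group G] [Group G'], (G ≃* G') → C G → C G') →
            C ↥H) ↔
          ¬ ∃ f : T →* ↥H, Function.Injective f) := by
  intro T _ ⟨e⟩ H hH
  have hAsc : FPT.AB3M.Asc ↥H := by
    rcases hH with h | ⟨G, hG, hfp, hfree, π, hπ⟩ | h
    · exact FPT.FINM.asc_fp T e H h
    · exact FPT.FINM.asc_quot ↥H G hfp (fun φ hφ => hfree ⟨φ, hφ⟩) π hπ
    · exact h
  have hdich := FPT.FINM.main T e H hAsc
  refine ⟨hdich, fun hEA => FPT.FINM.no_copy T e ↥H hEA, fun hno => ?_⟩
  rcases hdich with h | h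
  · exact absurd h hno
  · exact FPT.FINM.ea_of_comm ↥H h

end Pool.Agent.Results.MP_c27bde_al.FinitelyPresented
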