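import Pool.Agent.Lib.MP_c27bde_al.RC.Main
import Pool.Agent.Lib.MP_c27bde_al.RC.CHF

set_option autoImplicit false

namespace Pool.Agent.Results.MP_c27bde_al.ResidualClasses

/-- A class `C` of groups (with a group, all isomorphic groups) that contains the abelian groups and
is closed under subgroups, quotients, extensions and subgroups of restricted direct powers (`pow`:
`G` embeds in a restricted direct power of a group `A` in `C`). -/
structure GroupClass (C : (G : Type) → [Group G] → Prop) : Prop where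
  iso : ∀ (G G' : Type) [Group G] [Group G'], (G ≃* G') → C G → C G'
  ab : ∀ (G : Type) [Group G], (∀ a b : G, a * b = b * a) → C G
  sub : ∀ (G : Type) [Group G] (K : Subgroup G), C G → C ↥K
  quo : ∀ (G : Type) [Group G] (N : Subgroup G) [N.Normal], C G → C (G ⧸ N)
  ext : ∀ (G : Type) [Group G] (N : Subgroup G) [N.Normal], C ↥N → C (G ⧸ N) → C G
  pow : ∀ (G A : Type) [Group G] [Group A] (ι : Type) (f : ι → (G →* A)), C A →
    (∀ g, {i | f i g ≠ 1}.Finite) → (∀ g, (∀ i, f i g = 1) → g = 1) → C G

/-- `S` is a normal system of the group `L` with factors in `C`: a chain of normal subgroups of `L`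
(of any order type) that contains `1` and `L` and is closed under unions and intersections, such that
`B / A` is in `C` whenever `A < B` are consecutive members of `S`. -/
structure NormalSystem (C : (G : Type) → [Group G] → Prop) (L : Type) [Group L]
    (S : Set (Subgroup L)) : Prop where
  nor : ∀ N ∈ S, N.Normal
  chain : ∀ N ∈ S, ∀ N' ∈ S, N ≤ N' ∨ N' ≤ N
  bot : ⊥ ∈ S
  top : ⊤ ∈ S
  sup : ∀ T ⊆ S, T.Nonempty → sSup T ∈ S
  inf : ∀ T ⊆ S, T.Nonempty → sInf T ∈ S
  fac : ∀ A ∈ S, ∀ B ∈ S, A < B → (∀ D ∈ S, A ≤ D → D ≤ B → D = A ∨ D = B) →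
    ∀ _ : (A.subgroupOf B).Normal, C (↥B ⧸ A.subgroupOf B)

/-- `L` is residually `C`. -/
def Residually (C : (G : Type) → [Group G] → Prop) (L : Type) [Group L] : Prop :=
  ∀ g : L, g ≠ 1 → ∃ (N : Subgroup L) (_ : N.Normal), g ∉ N ∧ C (L ⧸ N)

/-- All chief factors of `L` are in `C`: if `A < B` are normal subgroups of `L` and there is no normal
subgroup of `L` strictly between them, then `B / A` is in `C`. -/
def ChiefFactors (C : (G : Type) → [Group G] → Prop) (L : Type) [Group L] : Prop :=
  ∀ A B : Subgroup L, A.Normal → B.Normal → A < B →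
    (∀ D : Subgroup L, D.Normal → A ≤ D → D ≤ B → D = A ∨ D = B) →
    ∀ _ : (A.subgroupOf B).Normal, C (↥B ⧸ A.subgroupOf B)

/-- `L` is residually `C`, or has a normal system with factors in `C`, or all chief factors of `L`
are in `C`. -/
def Weakly (C : (G : Type) → [Group G] → Prop) (L : Type) [Group L] : Prop :=
  Residually C L ∨ (∃ S, NormalSystem C L S) ∨ ChiefFactors C L

/-- Elementary amenable groups, as in the frozen statement. -/
def ElementaryAmenable (H : Type) [Group H] : Prop :=
  ∀ C : (G : Type) → [Group G] → Prop,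
    (∀ (G : Type) [Group G], Finite G → C G) →
    (∀ (G : Type) [Group G], (∀ a b : G, a * b = b * a) → C G) →
    (∀ (G : Type) [Group G] (K : Subgroup G), C G → C ↥K) →
    (∀ (G : Type) [Group G] (N : Subgroup G) [N.Normal], C G → C (G ⧸ N)) →
    (∀ (G : Type) [Group G] (N : Subgroup G) [N.Normal], C ↥N → C (G ⧸ N) → C G) →
    (∀ (G : Type) [Group G],
      (∀ s : Finset G, C ↥(Subgroup.closure (s : Set G))) → C G) →
    (∀ (G G' : Type) [Group G] [Group G'], (G ≃* G') → C G → C G') →
    C H

/-- `T` is Thompson's group F, given by the presentation of the frozen statement.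
(1) Let `C` be a class of groups as in `GroupClass` (elementary amenable groups, solvable groups, ...)
and let `H` be a finitely generated subgroup of `T` that contains no copy of F.  Then `H` has a least
normal subgroup `N` with `H / N` in `C`, and `N` is perfect.  So if `H` is residually `C`, then `H`
is in `C`.  If `H` has a normal system, of any order type, with factors in `C`, or if all chief
factors of `H` are in `C`, then `H` is in `C`.
(2) A subgroup `H` of `T` is elementary amenable if and only if every finitely generated subgroup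
of `H` is residually elementary amenable, or has a normal system with elementary amenable factors,
or has only elementary amenable chief factors; and then `H` contains no copy of F.
(3) A finitely generated subgroup of `T` is solvable if and only if it is residually solvable, or has
a normal system with solvable factors, or has only solvable chief factors. -/
theorem result :
    ∀ (T : Type) [Group T],
      Nonempty (T ≃* PresentedGroup
        ({(FreeGroup.of (0 : Fin 2) * (FreeGroup.of (1 : Fin 2))⁻¹) *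
            ((FreeGroup.of (0 : Fin 2))⁻¹ * FreeGroup.of (1 : Fin 2) * FreeGroup.of (0 : Fin 2)) *
            (FreeGroup.of (0 : Fin 2) * (FreeGroup.of (1 : Fin 2))⁻¹)⁻¹ *
            ((FreeGroup.of (0 : Fin 2))⁻¹ * FreeGroup.of (1 : Fin 2) * FreeGroup.of (0 : Fin 2))⁻¹,
          (FreeGroup.of (0 : Fin 2) * (FreeGroup.of (1 : Fin 2))⁻¹) *
            ((FreeGroup.of (0 : Fin 2))⁻¹ * (FreeGroup.of (0 : Fin 2))⁻¹ * FreeGroup.of (1 : Fin 2) *
              FreeGroup.of (0 : Fin 2) * FreeGroup.of (0 : Fin 2)) *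
            (FreeGroup.of (0 : Fin 2) * (FreeGroup.of (1 : Fin 2))⁻¹)⁻¹ *
            ((FreeGroup.of (0 : Fin 2))⁻¹ * (FreeGroup.of (0 : Fin 2))⁻¹ * FreeGroup.of (1 : Fin 2) *
              FreeGroup.of (0 : Fin 2) * FreeGroup.of (0 : Fin 2))⁻¹} :
          Set (FreeGroup (Fin 2)))) →
      (∀ C : (G : Type) → [Group G] → Prop, GroupClass C →
        ∀ H : Subgroup T, H.FG → (¬ ∃ f : T →* ↥H, Function.Injective f) →
          (∃ (N : Subgroup ↥H) (_ : N.Normal), C (↥H ⧸ N) ∧
            (∀ (N' : Subgroup ↥H) (_ : N'.Normal), C (↥H ⧸ N') → N ≤ N') ∧ ⁅N, N⁆ = N) ∧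
          (Weakly C ↥H → C ↥H)) ∧
      (∀ H : Subgroup T,
        (ElementaryAmenable ↥H ↔ ∀ L : Subgroup ↥H, L.FG →
          Weakly (fun G [Group G] => ElementaryAmenable G) ↥L) ∧
        (ElementaryAmenable ↥H → ¬ ∃ f : T →* ↥H, Function.Injective f)) ∧
      (∀ H : Subgroup T, H.FG →
        (Group.IsSolvable ↥H ↔ Weakly (fun G [Group G] => Group.IsSolvable G) ↥H)) := by
  intro T _ ⟨e⟩
  have cv : ∀ C : (G : Type) → [Group G] → Prop, GroupClass C → FPT.RC.Cls C := fun C h =>
    ⟨h.iso, h.ab, h.sub, h.quo, h.ext, h.pow⟩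
  have ns : ∀ (C : (G : Type) → [Group G] → Prop) (L : Type) [Group L] (S : Set (Subgroup L)),
      NormalSystem C L S → FPT.RC.NSys C L S := fun C L _ S h =>
    ⟨h.nor, h.chain, h.bot, h.top, h.sup, h.inf, h.fac⟩
  have wk : ∀ (C : (G : Type) → [Group G] → Prop) (L : Type) [Group L],
      Weakly C L → FPT.RC.FNM.Res C L ∨ ∃ S, FPT.RC.NSys C L S := by
    intro C L _ h
    rcases h with h | ⟨S, hS⟩ | h
    · left; exact h
    · right; exact ⟨S, ns C L S hS⟩
    · right; exact FPT.RC.CHFM.ex_sys C L h
  have rs : ∀ (C : (G : Type) → [Group G] → Prop), FPT.RC.Cls C → ∀ (L : Type) [Group L],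
      C L → Weakly C L := by
    intro C hC L _ hL
    left
    intro g hg
    exact ⟨⊥, inferInstance, by rwa [Subgroup.mem_bot],
      hC.iso _ _ QuotientGroup.quotientBot.symm hL⟩
  refine ⟨fun C hC H hfg hno => ?_, fun H => ⟨⟨fun h L hL => ?_, fun h => ?_⟩, fun h => ?_⟩,
    fun H hfg => ⟨fun h => ?_, fun h => ?_⟩⟩
  · obtain ⟨θ, hθ, hpl⟩ := FPT.RFM.exists_rep T e
    have h1 : Function.Injective (θ.comp H.subtype) := hθ.comp (Subgroup.subtype_injective H)
    have h2 : Group.FG ↥H := (Group.fg_iff_subgroup_fg H).2 hfg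
    refine ⟨?_, fun hw => ?_⟩
    · exact FPT.RC.FNM.lstp T e ↥H (θ.comp H.subtype) h1 (fun g => hpl _) h2 hno
        FPT.RC.MainM.lst (cv C hC)
    · rcases wk C ↥H hw with h | h
      · exact FPT.RC.FNM.res T e ↥H (θ.comp H.subtype) h1 (fun g => hpl _) h2 hno
          FPT.RC.MainM.lst (cv C hC) h
      · exact FPT.RC.FNM.nsys T e ↥H (θ.comp H.subtype) h1 (fun g => hpl _) h2 hno
          FPT.RC.MainM.sys (cv C hC) h
  · exact rs (fun G [Group G] => ElementaryAmenable G) FPT.RC.MainM.cla.ea ↥L
      (FPT.RC.MainM.cla.ea.sub ↥H L h)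
  · exact (FPT.RC.FNM.ea FPT.RC.MainM.nof FPT.RC.MainM.lst FPT.RC.MainM.sys FPT.RC.MainM.cla T e H
      (fun L hL => wk _ ↥L (h L hL))).1
  · exact FPT.FINM.no_copy T e ↥H h
  · exact rs (fun G [Group G] => Group.IsSolvable G) FPT.RC.MainM.cla.so ↥H h
  · exact FPT.RC.FNM.so FPT.RC.MainM.nof FPT.RC.MainM.lst FPT.RC.MainM.sys FPT.RC.MainM.cla T e H hfg
      (wk _ ↥H h)

end Pool.Agent.Results.MP_c27bde_al.ResidualClasses
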