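import Pool.Agent.Lib.MP_c27bde_al.RF.Main

set_option autoImplicit false

namespace Pool.Agent.Results.MP_c27bde_al.ResiduallyFinite

/-- The group `G / N` is generated by elements of finite order (for instance `G / N` is finite). -/
def TorsionGenerated {G : Type} [Group G] (N : Subgroup G) : Prop :=
  Subgroup.closure {y : G | ∃ n : ℕ, 0 < n ∧ y ^ n ∈ N} = ⊤

/-- Every finitely generated subgroup `L` of `H` is residually finite; or, more generally, every
`g ≠ 1` in such an `L` has a non-trivial image in a quotient of `L` that is generated by elements of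
finite order. -/
def LocallyResidual (H : Type) [Group H] : Prop :=
  (∀ L : Subgroup H, L.FG → ∀ g : ↥L, g ≠ 1 →
    ∃ N : Subgroup ↥L, N.Normal ∧ N.FiniteIndex ∧ g ∉ N) ∨
  (∀ L : Subgroup H, L.FG → ∀ g : ↥L, g ≠ 1 →
    ∃ N : Subgroup ↥L, N.Normal ∧ g ∉ N ∧ TorsionGenerated N)

/-- `T` is Thompson's group F, given by the presentation of the frozen statement, and `H` is a
subgroup of `T`.
(1) Every quotient `H / N` that is generated by elements of finite order (every finite quotient, for
instance) is metabelian: `N` contains the second derived subgroup of `H`.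
(2) If `H` is locally residually finite (or only `LocallyResidual`), then `H` is metabelian, `H` is
elementary amenable (the definition of the frozen statement) and `H` contains no copy of F. -/
theorem result :
    ∀ (T : Type) [Group T],
      Nonempty (T ≃* PresentedGroup
        ({(FreeGroup.of (0 : Fin 2) * (FreeGroup.of (1 : Fin 2))⁻¹) *
            ((FreeGroup.of (0 : Fin 2))⁻¹ * FreeGroup.of (1 : Fin 2) * FreeGroup.of (0 : Fin 2)) *
            (FreeGroup.of (0 : Fin 2) * (FreeGroup.of (1 : Fin 2))⁻¹)⁻¹ *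
            ((FreeGroup.of (0 : Fin 2))⁻¹ * FreeGroup.of (1 : Fin 2) * FreeGroup.of (0 : Fin 2))⁻¹,
          (FreeGroup.of (0 : Fin 2) * (FreeGroup.of (1 : Fin 2))⁻¹) *
            ((FreeGroup.of (0 : Fin 2))⁻¹ * (FreeGroup.of (0 : Fin 2))⁻¹ * FreeGroup.of (1 : Fin 2) *
              FreeGroup.of (0 : Fin 2) * FreeGroup.of (0 : Fin 2)) *
            (FreeGroup.of (0 : Fin 2) * (FreeGroup.of (1 : Fin 2))⁻¹)⁻¹ *
            ((FreeGroup.of (0 : Fin 2))⁻¹ * (FreeGroup.of (0 : Fin 2))⁻¹ * FreeGroup.of (1 : Fin 2) *
              FreeGroup.of (0 : Fin 2) * FreeGroup.of (0 : Fin 2))⁻¹} :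
          Set (FreeGroup (Fin 2)))) →
      ∀ H : Subgroup T,
        (∀ N : Subgroup ↥H, N.Normal → TorsionGenerated N → derivedSeries ↥H 2 ≤ N) ∧
        (LocallyResidual ↥H →
          derivedSeries ↥H 2 = ⊥ ∧
          (∀ C : (G : Type) → [Group G] → Prop,
            (∀ (G : Type) [Group G], Finite G → C G) →
            (∀ (G : Type) [Group G], (∀ a b : G, a * b = b * a) → C G) →
            (∀ (G : Type) [Group G] (K : Subgroup G), C G → C ↥K) →
            (∀ (G : Type) [Group G] (N : Subgroup G) [N.Normal], C G → C (G ⧸ N)) →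
            (∀ (G : Type) [Group G] (N : Subgroup G) [N.Normal], C ↥N → C (G ⧸ N) → C G) →
            (∀ (G : Type) [Group G],
              (∀ s : Finset G, C ↥(Subgroup.closure (s : Set G))) → C G) →
            (∀ (G G' : Type) [Group G] [Group G'], (G ≃* G') → C G → C G') →
            C ↥H) ∧
          ¬ ∃ f : T →* ↥H, Function.Injective f) := by
  intro T _ ⟨e⟩ H
  refine ⟨fun N hN hT => FPT.RFM.part1 T e H N hN hT, fun hL => ?_⟩
  have hR : FPT.RFM.LocRes ↥H := by
    rcases hL with h | h
    · exact FPT.RFM.locRes_of_resFin ↥H h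
    · exact h
  have hm := FPT.RFM.metab T e H hR
  have hea := FPT.RFM.ea_of_metab ↥H hm
  exact ⟨hm, hea, FPT.FINM.no_copy T e ↥H hea⟩

end Pool.Agent.Results.MP_c27bde_al.ResiduallyFinite
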